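import Pool.Agent.H14.Bal2

set_option autoImplicit false

namespace Pool.Agent.Results.MP_df5386_co.Blowup

open Pool.Agent.H14.Bal Matrix Finset

def B (a b : Fin 5) : Prop :=
  (a, b) ∈ ([(0, 1), (0, 2), (0, 3), (0, 4), (1, 0), (1, 2), (1, 3), (1, 4), (4, 0), (4, 2)] :
    List (Fin 5 × Fin 5))

instance : DecidableRel B := fun a b => by unfold B; infer_instance

def A (k : ℕ) (i j : Fin (k * 5)) : Prop := B (finProdFinEquiv.symm i).2 (finProdFinEquiv.symm j).2

instance (k : ℕ) : DecidableRel (A k) := fun i j => by unfold A; infer_instance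

theorem form (k : ℕ) (y : Fin 5 → ℝ) (x : Fin (k * 5) → ℝ)
    (h : x = fun i => y (finProdFinEquiv.symm i).2) :
    ∑ i, x i = k * ∑ a, y a ∧ x ⬝ᵥ x = k * ∑ a, y a * y a ∧
    x ⬝ᵥ lap (A k) *ᵥ x = k * (k * ∑ a, ∑ b, if B a b then y a ^ 2 - y a * y b else 0) := by
  subst h
  refine ⟨sum_blow y, sum_blow fun a => y a * y a, ?_⟩
  rw [quad_lap, mul_sum, ← sum_blow]
  refine sum_congr rfl fun i _ => ?_
  exact sum_blow fun b => if B (finProdFinEquiv.symm i).2 b then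
    y (finProdFinEquiv.symm i).2 ^ 2 - y (finProdFinEquiv.symm i).2 * y b else 0

theorem result (C : ℝ) : ∃ (n : ℕ) (A : Fin n → Fin n → Prop) (_ : DecidableRel A),
    2 ≤ n ∧ (∀ i, ¬ A i i) ∧ ∃ α β : ℝ, IsLeast (vals A) α ∧ IsGreatest (vals A) β ∧
      n + C < β - α := by
  obtain ⟨k, hk⟩ := exists_nat_gt (26 * |C|)
  have hk0 : (0 : ℝ) < k := lt_of_le_of_lt (by positivity) hk
  have hk1 : 0 < k := by exact_mod_cast hk0
  obtain ⟨a1, a2, a3⟩ := form k ![1, -1, 0, 0, 0] _ rfl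
  obtain ⟨b1, b2, b3⟩ := form k ![0, 0, 3, -4, 1] _ rfl
  simp only [Fin.sum_univ_five] at a1 a2 a3 b1 b2 b3
  simp (decide := true) only [Matrix.cons_val, if_true, if_false] at a1 a2 a3 b1 b2 b3
  have hne := vals_nonempty (A k) _ (a1.trans (by ring)) (by rw [a2]; nlinarith)
  obtain ⟨α, hα⟩ := (vals_compact (A k)).exists_isLeast hne
  obtain ⟨β, hβ⟩ := (vals_compact (A k)).exists_isGreatest hne
  refine ⟨k * 5, A k, inferInstance, by omega, fun i => ?_, α, β, hα, hβ, ?_⟩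
  · have : ∀ a, ¬ B a a := by decide
    exact this _
  have h1 := (hom (A k) hα hβ _ (a1.trans (by ring))).2
  have h2 := (hom (A k) hα hβ _ (b1.trans (by ring))).1
  rw [quad_sym, a2, a3] at h1
  rw [quad_sym, b2, b3] at h2
  have c1 : 5 * (k : ℝ) ≤ β := by nlinarith
  have c2 : 26 * α ≤ -k := by nlinarith
  push_cast
  linarith [le_abs_self C]

end Pool.Agent.Results.MP_df5386_co.Blowup
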